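import Pool.Agent.Helper53.PF.St

/-! # Project PF, module CST -/

set_option autoImplicit false

namespace PF.Helper62

open Polynomial

theorem holds_CST : StCST := by
  intro n x y z h hd hxy hz
  obtain ⟨k, hk⟩ := natDegree_eq_zero.1 hd
  have hk0 : k ≠ 0 := by
    rintro rfl
    apply hxy
    rw [← hk, C_0]
  obtain ⟨w, hw⟩ : ∃ w, w = x - y := ⟨_, rfl⟩
  have hz0 : z ≠ 0 := by
    rintro rfl
    simp at hz
  have e1 : C 4 * z ^ 3 + C (3 * k) * w ^ 2 + C (-(4 * n - k ^ 3)) * 1 ^ 6 = 0 := by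
    simp only [C_mul, C_neg, C_sub, C_pow, map_ofNat]
    rw [hk, hw]
    linear_combination 4 * h
  have hdz : z.natDegree ≠ 0 := hz.ne'
  have hw0 : w ≠ 0 := by
    rintro hw0
    rw [hw0] at e1
    have e2 : z ^ 3 = C ((4 * n - k ^ 3) / 4) := by
      have e3 : (C 4 : ℚ[X]) * (z ^ 3 - C ((4 * n - k ^ 3) / 4)) = 0 := by
        rw [mul_sub, ← C_mul, mul_div_cancel₀ _ (by norm_num : (4 : ℚ) ≠ 0)]
        simp only [C_neg] at e1
        linear_combination e1
      rcases mul_eq_zero.1 e3 with h4 | h4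
      · exact absurd h4 (C_ne_zero.2 (by norm_num))
      · linear_combination h4
    have e4 := congrArg natDegree e2
    rw [natDegree_pow, natDegree_C] at e4
    omega
  by_cases hn : 4 * n - k ^ 3 = 0
  · rw [hn, neg_zero, C_0, zero_mul, add_zero] at e1
    have hdvd : z ^ 2 ∣ w ^ 2 := by
      refine ⟨C (-(4 / (3 * k))) * z, ?_⟩
      have e3 : C (3 * k) * (w ^ 2 - z ^ 2 * (C (-(4 / (3 * k))) * z)) = 0 := by
        have e4 : C (3 * k) * C (-(4 / (3 * k))) = C (-4) := by
          rw [← C_mul]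
          congr 1
          field_simp
        rw [C_neg] at e4
        simp only [C_neg] at e4 ⊢
        linear_combination e1 - z ^ 3 * e4
      rcases mul_eq_zero.1 e3 with h4 | h4
      · exact absurd h4 (C_ne_zero.2 (mul_ne_zero (by norm_num) hk0))
      · linear_combination h4
    obtain ⟨m, hm⟩ := (UniqueFactorizationMonoid.pow_dvd_pow_iff_dvd (by norm_num)).1 hdvd
    rw [hm] at e1
    have e5 : z ^ 2 * (C 4 * z + C (3 * k) * m ^ 2) = 0 := by linear_combination e1
    have e6 := (mul_eq_zero.1 e5).resolve_left (pow_ne_zero 2 hz0)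
    obtain ⟨c, hc⟩ : ∃ c : ℚ, c = k / 2 := ⟨_, rfl⟩
    have hkc : k = 2 * c := by rw [hc]; ring
    have hhalf : (C (1 / 2) : ℚ[X]) * 2 = 1 := by
      have : (2 : ℚ[X]) = C 2 := (map_ofNat C 2).symm
      rw [this, ← C_mul]
      norm_num
    have h4i : (C (1 / 4) : ℚ[X]) * 4 = 1 := by
      have : (4 : ℚ[X]) = C 4 := (map_ofNat C 4).symm
      rw [this, ← C_mul]
      norm_num
    have hkC : (C k : ℚ[X]) = 2 * C c := by
      rw [hkc, C_mul, map_ofNat]
    have hzc : z = C (-6 * c) * (C (1 / 2) * m) ^ 2 := by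
      simp only [C_mul, C_neg, map_ofNat] at e6 ⊢
      rw [hkC] at e6
      have e7 : 4 * (z - (-6 * C c * (C (1 / 2) * m) ^ 2)) = 0 := by
        linear_combination e6 + 6 * C c * m ^ 2 * (C (1 / 2) * 2 + 1) * hhalf
      rcases mul_eq_zero.1 e7 with h4 | h4
      · exact absurd h4 (by norm_num)
      · linear_combination h4
    refine ⟨c, C (1 / 2) * m, ?_, ?_, ?_, hzc⟩
    · rw [hc]
      linear_combination hn / 4
    · have e8 : 2 * x = 2 * (C c * (1 - 6 * (C (1 / 2) * m) ^ 3)) := by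
        have e9 : 2 * x = C k + w := by rw [hk, hw]; ring
        rw [e9, hkC, hm, hzc]
        simp only [C_mul, C_neg, map_ofNat]
        linear_combination (6 * C c * C (1 / 2) ^ 2 * m ^ 3) * hhalf
      have h2 : (2 : ℚ[X]) ≠ 0 := by norm_num
      exact mul_left_cancel₀ h2 e8
    · have e8 : 2 * y = 2 * (C c * (1 + 6 * (C (1 / 2) * m) ^ 3)) := by
        have e9 : 2 * y = C k - w := by rw [hk, hw]; ring
        rw [e9, hkC, hm, hzc]
        simp only [C_mul, C_neg, map_ofNat]
        linear_combination (-(6 * C c * C (1 / 2) ^ 2 * m ^ 3)) * hhalf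
      have h2 : (2 : ℚ[X]) ≠ 0 := by norm_num
      exact mul_left_cancel₀ h2 e8
  · exfalso
    have hcop : IsCoprime z w := by
      refine ⟨C (4 / (4 * n - k ^ 3)) * z ^ 2, C (3 * k / (4 * n - k ^ 3)) * w, ?_⟩
      have e2 : C (4 / (4 * n - k ^ 3)) = C (1 / (4 * n - k ^ 3)) * C 4 := by
        rw [← C_mul]; congr 1; ring
      have e3 : C (3 * k / (4 * n - k ^ 3)) = C (1 / (4 * n - k ^ 3)) * C (3 * k) := by
        rw [← C_mul]; congr 1; ring
      have e4 : C (1 / (4 * n - k ^ 3)) * C (4 * n - k ^ 3) = 1 := by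
        rw [← C_mul, one_div_mul_cancel hn, C_1]
      rw [e2, e3]
      rw [C_neg] at e1
      linear_combination C (1 / (4 * n - k ^ 3)) * e1 + e4
    have := Polynomial.flt_catalan (p := 3) (q := 2) (r := 6) (by norm_num) (by norm_num)
      (by norm_num) (by norm_num) (by norm_num) (by norm_num) (by norm_num) hz0 hw0 one_ne_zero hcop
      (by norm_num : (4 : ℚ) ≠ 0) (mul_ne_zero (by norm_num) hk0) (neg_ne_zero.2 hn) e1
    exact hdz this.1

end PF.Helper62
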