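import Pool.Agent.Helper53.PF.St

/-! # Project PF, module LNF -/

set_option autoImplicit false

namespace PF.Helper62

open Polynomial

/-- Proportional polynomials. -/
theorem prop_of_wr {k : Type} [Field k] [CharZero k] {P T : k[X]} (hP : P ≠ 0) (hT : T ≠ 0)
    (h : derivative P * T = P * derivative T) : ∃ κ : k, κ ≠ 0 ∧ P = C κ * T := by
  classical
  have hc := isCoprime_div_gcd_div_gcd (p := P) (q := T) hT
  obtain ⟨g, hg⟩ : ∃ g, g = gcd P T := ⟨_, rfl⟩
  rw [← hg] at hc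
  have hg0 : g ≠ 0 := by
    rw [hg]
    intro h0
    exact hT ((gcd_eq_zero_iff P T).1 h0).2
  obtain ⟨P1, hP1⟩ : g ∣ P := hg ▸ gcd_dvd_left P T
  obtain ⟨T1, hT1⟩ : g ∣ T := hg ▸ gcd_dvd_right P T
  have e1 : P / g = P1 := by
    rw [hP1]
    exact mul_div_cancel_left₀ P1 hg0
  have e2 : T / g = T1 := by
    rw [hT1]
    exact mul_div_cancel_left₀ T1 hg0
  rw [e1, e2] at hc
  have hw : wronskian P1 T1 = 0 := by
    have h2 : g ^ 2 * wronskian P1 T1 = 0 := by
      rw [hP1, hT1, derivative_mul, derivative_mul] at h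
      unfold wronskian
      linear_combination -h
    exact (mul_eq_zero.1 h2).resolve_left (pow_ne_zero 2 hg0)
  obtain ⟨d1, d2⟩ := hc.wronskian_eq_zero_iff.1 hw
  obtain ⟨a, ha⟩ := natDegree_eq_zero.1 (derivative_eq_zero.1 d1)
  obtain ⟨b, hb⟩ := natDegree_eq_zero.1 (derivative_eq_zero.1 d2)
  have ha0 : a ≠ 0 := by
    rintro rfl
    rw [← ha, C_0, mul_zero] at hP1
    exact hP hP1
  have hb0 : b ≠ 0 := by
    rintro rfl
    rw [← hb, C_0, mul_zero] at hT1
    exact hT hT1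
  refine ⟨a / b, div_ne_zero ha0 hb0, ?_⟩
  rw [hP1, hT1, ← ha, ← hb]
  have : C (a / b) * (g * C b) = g * (C (a / b) * C b) := by ring
  rw [this, ← C_mul, div_mul_cancel₀ a hb0]

theorem holds_LNF : StLNF := by
  intro k _ _ n hn M D a b c β hD hc hF hO
  have hα : (3 * X * c ^ 2 : k[X]) ≠ 0 := by
    have h3 : (3 : k[X]) ≠ 0 := by norm_num
    exact mul_ne_zero (mul_ne_zero h3 X_ne_zero) (pow_ne_zero 2 hc)
  obtain ⟨α, hαe⟩ : ∃ α : k[X], α = 3 * X * c ^ 2 := ⟨_, rfl⟩
  rw [← hαe] at hα hO hF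
  have hn4 : (4 * n : k) ≠ 0 := mul_ne_zero (by norm_num) hn
  have hcoef0 : (X ^ 3 - C (4 * n) : k[X]).coeff 0 ≠ 0 := by
    simp only [coeff_sub, coeff_X_pow, coeff_C_zero]
    norm_num
    exact hn
  have hcub : (X ^ 3 - C (4 * n) : k[X]) ≠ 0 := by
    intro h0
    rw [h0] at hcoef0
    simp at hcoef0
  -- (1) `β = 0`
  have hβ : β = 0 := by
    by_contra hβ
    have hT : (X ^ 3 - C (4 * n)) * α ^ 3 ≠ 0 := mul_ne_zero hcub (pow_ne_zero 3 hα)
    have hw : derivative (β ^ 3) * ((X ^ 3 - C (4 * n)) * α ^ 3) =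
        β ^ 3 * derivative ((X ^ 3 - C (4 * n)) * α ^ 3) := by
      simp only [derivative_mul, derivative_pow, derivative_sub, derivative_X, derivative_C,
        map_natCast]
      push_cast
      linear_combination (3 * β ^ 2 * α ^ 2) * hO
    obtain ⟨κ, hκ, hP⟩ := prop_of_wr (pow_ne_zero 3 hβ) hT hw
    have hdvd : α ^ 3 ∣ β ^ 3 := ⟨C κ * (X ^ 3 - C (4 * n)), by rw [hP]; ring⟩
    have hdvd' : α ∣ β := (UniqueFactorizationMonoid.pow_dvd_pow_iff_dvd (by norm_num)).1 hdvd
    obtain ⟨h, hh⟩ := hdvd'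
    have e3 : h ^ 3 = C κ * (X ^ 3 - C (4 * n)) := by
      have h4 : α ^ 3 * (h ^ 3 - C κ * (X ^ 3 - C (4 * n))) = 0 := by
        rw [hh] at hP
        linear_combination hP
      have := (mul_eq_zero.1 h4).resolve_left (pow_ne_zero 3 hα)
      linear_combination this
    have hdeg : h.natDegree ≤ 1 := by
      have h5 : (h ^ 3).natDegree ≤ 3 := by
        rw [e3]
        compute_degree
      rw [natDegree_pow] at h5
      omega
    obtain ⟨u, v, huv⟩ := exists_eq_X_add_C_of_natDegree_le_one hdeg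
    have e4 : h ^ 3 = C (u ^ 3) * X ^ 3 + C (3 * u ^ 2 * v) * X ^ 2 + C (3 * u * v ^ 2) * X +
        C (v ^ 3) := by
      rw [huv]
      simp only [C_mul, C_pow, map_ofNat]
      ring
    rw [e3] at e4
    have c3 := congrArg (fun p => p.coeff 3) e4
    have c2 := congrArg (fun p => p.coeff 2) e4
    have c0 := congrArg (fun p => p.coeff 0) e4
    simp only [coeff_add, coeff_C_mul, coeff_X_pow, coeff_X, coeff_C, coeff_sub] at c3 c2 c0
    norm_num at c3 c2 c0
    have hu : u ≠ 0 := by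
      rintro rfl
      simp at c3
      exact hκ c3
    rcases c2 with h | h
    · exact hu h
    · rw [h] at c0
      simp at c0
      rcases c0 with h | h
      · exact hκ h
      · exact hn h
  -- (2)
  rw [hβ] at hF
  have h0 := congrArg (eval 0) hF
  unfold FQ at h0
  simp only [map_zero, sub_zero, eval_add, eval_mul, eval_C, eval_X, eval_pow, eval_sub,
    mul_zero, add_zero, ne_eq, OfNat.ofNat_ne_zero, not_false_eq_true,
    zero_pow, eval_ofNat] at h0
  have h1 : 3 * (X * a ^ 2) = -(D ^ 2 * (X ^ 3 - C (4 * n))) := by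
    linear_combination h0
  have hDc : D ^ 2 * (X ^ 3 - C (4 * n)) ≠ 0 := mul_ne_zero (pow_ne_zero 2 hD) hcub
  have ha : a ≠ 0 := by
    rintro rfl
    apply hDc
    linear_combination h0
  have h2 := congrArg natTrailingDegree h1
  have h3 : (3 : k[X]) = C 3 := (map_ofNat C 3).symm
  rw [natTrailingDegree_neg, natTrailingDegree_mul (pow_ne_zero 2 hD) hcub, h3,
    natTrailingDegree_mul (C_ne_zero.2 (by norm_num)) (mul_ne_zero X_ne_zero (pow_ne_zero 2 ha)),
    natTrailingDegree_mul X_ne_zero (pow_ne_zero 2 ha), natTrailingDegree_C, natTrailingDegree_X,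
    pow_two, pow_two, natTrailingDegree_mul ha ha, natTrailingDegree_mul hD hD,
    natTrailingDegree_eq_zero.2 (Or.inr hcoef0)] at h2
  omega

end PF.Helper62
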